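import Pool.Agent.LibWQ.FIN2

set_option autoImplicit false

namespace Pool.Agent.Results.MP_c2d7b4_nt.HurwitzWords

open Pool.MH.Stmt CM68 WX

/-- **Multiple Hurwitz zeta values at rational points: linear independence, and no algebraic relations but those which hold identically, at
all but polylogarithmically many rational points of denominator `≤ Q`.**
`zetaH w y` is the multiple Hurwitz zeta value `ζ(w; y) = ∑_{n₁ > ⋯ > n_r ≥ 0} ∏ (n_i + y)^(-w_i)`; `ζ(w; 1)` is the multiple zeta value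
`ζ(w)` of the problem and `ζ(w; 1/2)` is `2^|w|` times the multiple t-value (last two parts). `IndepV V W z`: the numbers `z w`, `w ∈ W`,
are linearly independent over the space `V` of coefficients. `RelH V M y`: some polynomial relation of weight `≤ M` with coefficients in
`V` between numbers `ζ(u; y)`, `u` admissible, does not hold for every positive real in the place of `y`. `DepH V W M y`: the numbers
`ζ(u; y)`, `u ∈ W`, are linearly dependent over `V`, or `RelH V M y`. `AtMost P C`: at most `C` elements have the property `P`.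
`EW M K L = M (80 K (L + 3))^(4K + 2)`; `MZ M` is the space spanned by the multiple zeta values of weight at most `M`.

Let `V` be a `ℚ`-subspace of `ℝ` with `dim V ≤ D` and `W` any finite set of admissible words of weight at most `M` (for instance **all** of
them, or the Hoffman words), `M, D ≥ 1`, `Q ≥ 2`.
(1) For all but `EW M (D 2^M) (log Q)` of all rational numbers `0 < y < 1` of denominator `≤ Q` no `y + n`, `n ≥ 0`, satisfies `DepH`.
(2) For all but that many moduli `2 ≤ q ≤ Q` no `x / q` in lowest terms satisfies it. (3) For rational `t ≥ 0` and all but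
`EW M (D 2^M) (log (t.den Q))` of the `n ≤ Q` the point `t + 1 / n` does not satisfy it, if it is not an integer. (4) The weight and the
dimension may tend to infinity with `Q`. (5) `MZ M'` has dimension at most `2^(M'-1)`, so `V` may be the space of all multiple zeta values
of weight at most `M'`. -/
theorem result :
    (∀ (W : Finset (List ℕ)) (M D Q : ℕ) (V : Submodule ℚ ℝ), 1 ≤ M → 1 ≤ D → 2 ≤ Q →
      (∀ u ∈ W, Admissible u ∧ u.sum ≤ M) → Module.Finite ℚ V → Module.finrank ℚ V ≤ D →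
      AtMost (fun y : ℚ => 0 < y ∧ y < 1 ∧ y.den ≤ Q ∧ ∃ n : ℕ, DepH V W M ((y : ℝ) + n))
        (EW M (D * 2 ^ M) (Real.log Q)) ∧
      AtMost (fun q : ℕ => 2 ≤ q ∧ q ≤ Q ∧ ∃ x : ℕ, x.Coprime q ∧ DepH V W M ((x : ℝ) / q))
        (EW M (D * 2 ^ M) (Real.log Q)) ∧
      ∀ t : ℚ, 0 ≤ t → AtMost (fun n : ℕ => 1 ≤ n ∧ n ≤ Q ∧ (∀ z : ℤ, t + 1 / (n : ℚ) ≠ z) ∧
        DepH V W M ((t : ℝ) + 1 / (n : ℝ))) (EW M (D * 2 ^ M) (Real.log (t.den * Q)))) ∧
    (∀ η : ℝ, 0 < η → η < 1 / 2 → ∃ Q₀ : ℕ, ∀ Q : ℕ, Q₀ ≤ Q → ∀ M D : ℕ, 1 ≤ M → 1 ≤ D →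
      (D : ℝ) * 2 ^ M ≤ Real.log Q ^ (1 - 2 * η) →
      ∀ V : Submodule ℚ ℝ, Module.Finite ℚ V → Module.finrank ℚ V ≤ D →
      ∀ W : Finset (List ℕ), (∀ u ∈ W, Admissible u ∧ u.sum ≤ M) →
      AtMost (fun y : ℚ => 0 < y ∧ y < 1 ∧ y.den ≤ Q ∧ ∃ n : ℕ, DepH V W M ((y : ℝ) + n))
        (Real.exp (Real.log Q ^ (1 - η)))) ∧
    (∀ M : ℕ, 1 ≤ M → Module.Finite ℚ (MZ M) ∧ Module.finrank ℚ (MZ M) ≤ 2 ^ (M - 1)) ∧
    (∀ w : List ℕ, zetaH w 1 = Pool.HB89.Stmt.zetaW w) ∧
    ∀ w : List ℕ, zetaH w (1 / 2) =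
      2 ^ w.sum * ∑' k : {k : Fin w.length → ℕ // StrictAnti k ∧ ∀ i, Odd (k i)},
        ∏ i, ((k.1 i : ℝ) ^ (w.get i))⁻¹ :=
  ⟨fun _ _ _ _ _ hM _ hQ hadm hVf hVD =>
      ⟨dep_EW hM hQ hVf hVD hadm, dep_mod hM hQ hVf hVD hadm,
        fun _ ht => dep_near hM hQ hVf hVD hadm ht⟩,
    fun _ h0 h1 => dep_growing h0 h1,
    MZ_finite, CM68.zetaH_one, CM68.zetaH_half⟩

end Pool.Agent.Results.MP_c2d7b4_nt.HurwitzWords
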