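import Pool.Agent.LibHB89.B1
import Pool.Agent.LibIS91.B
import Pool.Agent.LibIS91.D

set_option autoImplicit false

namespace Pool.Agent.Results.MP_c2d7b4_nt.IndependentSequences

open Pool.HB89.Stmt

/-- **Every Hoffman word with `l` threes starts an infinite sequence of Hoffman words with `l` threes and bounded gaps,
whose values are linearly independent over the algebraic numbers, and at most one of them is algebraic.** Here `zetaW w` is
the multiple zeta value of the word `w`, and `word a` is the word `{2}^(a 0) 3 {2}^(a 1) 3 ⋯ 3 {2}^(a l)` with exactly `l`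
threes. `K` is any subfield of `ℂ` over which `π` is transcendental; by the last part the field of all algebraic numbers is
one. To every `l` and every `a` in `ℕ ^ (l + 1)` belongs a sequence `c l a 0 = a`, `c l a 1`, `c l a 2`, … in
`ℕ ^ (l + 1)`, where `c l a (k + 1)` arises from `c l a k` by adding a vector of natural numbers with sum between `1` and
`2 ^ l`; so the word `w (k + 1)` arises from the word `w k`, `w k = word (c l a k)`, by inserting between `1` and `2 ^ l`
twos. Let `W k` be the weight of `w k` (the sum of its letters). These sequences have the following properties.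

(1) For all `φ 0 < φ 1 < φ 2 < ⋯` the numbers `π ^ j * ζ(w (φ i))`, `i ≥ 0`, `0 ≤ j < W (φ (i + 1)) - W (φ i)`, are linearly
independent over `K`. (In particular the numbers `ζ(w k)`, `k ≥ 0`, are.)

(2) If `ζ(w k)` and `ζ(w k')`, `k < k'`, are roots of nonzero polynomials, of any degree, whose coefficients are polynomials in
`π` over `K` of degree at most `h` and at most `h'`, then `W k' ≤ W k + h + h'`. (So at most one of the `ζ(w k)` is algebraic
over `K`.) For every finite-dimensional `K`-subspace `U` of `ℂ` there is `B`, not depending on `l` and `a`, such that at most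
`B` of the `ζ(w k)` are roots of nonzero polynomials, of any degree, with coefficients in `U`.

(3) Let `s` of these sequences be given, `E` a finite set of exponents in `s` variables, and `V e` a finite-dimensional
`K`-subspace of `ℂ` for `e` in `E`. Of the `M ^ s` tuples `(k 1, …, k s)` with all `k i < M`, at most
`M ^ (s - 1)` times the sum of `dim (V e) dim (V f)` over all unordered pairs `e ≠ f` in `E` are such that some nonzero
polynomial, all whose exponents are in `E` and whose coefficient at `e` is in `V e`, vanishes at the corresponding tuple of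
values. -/
theorem result :
    (∀ K : IntermediateField ℚ ℂ, Transcendental K (Real.pi : ℂ) →
      ∃ c : ∀ l : ℕ, (Fin (l + 1) → ℕ) → ℕ → (Fin (l + 1) → ℕ),
        (∀ l a, c l a 0 = a ∧ ∀ k, c l a k ≤ c l a (k + 1) ∧ ∑ i, c l a k i < ∑ i, c l a (k + 1) i ∧
          ∑ i, c l a (k + 1) i ≤ ∑ i, c l a k i + 2 ^ l) ∧
        (∀ (l : ℕ) (a : Fin (l + 1) → ℕ) (φ : ℕ → ℕ), StrictMono φ →
          LinearIndependent K fun q : Σ i : ℕ,
              Fin ((word (c l a (φ (i + 1)))).sum - (word (c l a (φ i))).sum) =>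
            (Real.pi : ℂ) ^ (q.2 : ℕ) * (zetaW (word (c l a (φ q.1))) : ℂ)) ∧
        (∀ (l : ℕ) (a : Fin (l + 1) → ℕ) (k k' h h' : ℕ), k < k' →
          (∃ P : Polynomial ℂ, P ≠ 0 ∧
            (∀ j, P.coeff j ∈ Submodule.span K (Set.range fun i : Fin (h + 1) => (Real.pi : ℂ) ^ (i : ℕ))) ∧
              P.eval (zetaW (word (c l a k)) : ℂ) = 0) →
          (∃ P : Polynomial ℂ, P ≠ 0 ∧
            (∀ j, P.coeff j ∈ Submodule.span K (Set.range fun i : Fin (h' + 1) => (Real.pi : ℂ) ^ (i : ℕ))) ∧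
              P.eval (zetaW (word (c l a k')) : ℂ) = 0) →
          (word (c l a k')).sum ≤ (word (c l a k)).sum + h + h') ∧
        (∀ U : Submodule K ℂ, FiniteDimensional K U → ∃ B : ℕ, ∀ l a,
          {k : ℕ | ∃ P : Polynomial ℂ, P ≠ 0 ∧ (∀ j, P.coeff j ∈ U) ∧
            P.eval (zetaW (word (c l a k)) : ℂ) = 0}.encard ≤ B) ∧
        (∀ (s : ℕ) (l : Fin s → ℕ) (a : ∀ i, Fin (l i + 1) → ℕ) (E : Finset (Fin s →₀ ℕ))
          (V : (Fin s →₀ ℕ) → Submodule K ℂ), (∀ e ∈ E, FiniteDimensional K (V e)) → ∀ M : ℕ,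
            2 * {k : Fin s → ℕ | (∀ i, k i < M) ∧ ∃ P : MvPolynomial (Fin s) ℂ, P ≠ 0 ∧ P.support ⊆ E ∧
                (∀ e ∈ E, P.coeff e ∈ V e) ∧
                  MvPolynomial.eval (fun i => (zetaW (word (c (l i) (a i) (k i))) : ℂ)) P = 0}.ncard ≤
              M ^ (s - 1) * ∑ p ∈ E.offDiag, Module.finrank K (V p.1) * Module.finrank K (V p.2))) ∧
    Transcendental (algebraicClosure ℚ ℂ) (Real.pi : ℂ) := by
  refine ⟨?_, Pool.HB89.transcendental_pi_closure⟩
  intro K hπ
  obtain ⟨v, hv, hK, hP⟩ := Pool.Agent.PO.exists_abs K hπ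
  obtain ⟨c, hc⟩ := Pool.Agent.IS.exists_seq hv hP
  have hg : ∀ (l : ℕ) (a : Fin (l + 1) → ℕ),
      Pool.Agent.IS.Grow v (fun k => (word (c l a k)).sum) (fun k => (zetaW (word (c l a k)) : ℂ)) := fun l a =>
    ⟨fun k => Pool.Agent.IS.zeta_ne_zero _, strictMono_nat_of_lt_succ fun k => by
      have := ((hc l a).2 k).2.1
      rw [Pool.Agent.IS.word_sum, Pool.Agent.IS.word_sum]
      omega, fun k => ((hc l a).2 k).2.2.2⟩
  have hbd : ∀ (h : ℕ) (z : ℂ), z ≠ 0 → (∃ P : Polynomial ℂ, P ≠ 0 ∧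
      (∀ j, P.coeff j ∈ Submodule.span K (Set.range fun i : Fin (h + 1) => (Real.pi : ℂ) ^ (i : ℕ))) ∧
        P.eval z = 0) → v z ≤ v (Real.pi : ℂ) ^ h ∧ 1 ≤ v (Real.pi : ℂ) ^ h * v z := by
    rintro h z hz ⟨P, hP0, hPU, hPz⟩
    refine Pool.Agent.IS.root_bounds hv _ (one_le_pow₀ hP.le) (fun x hx hx0 y hy hy0 => ?_) _ hz P hP0 hPU hPz
    have h1 := (Pool.Agent.IS.span_pi_bounds hv hP hK h x hx hx0).2
    have h2 := (Pool.Agent.IS.span_pi_bounds hv hP hK h y hy hy0).1
    have h3 : 0 ≤ v (Real.pi : ℂ) ^ h := by positivity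
    nlinarith
  refine ⟨c, fun l a => ⟨(hc l a).1, fun k => ⟨((hc l a).2 k).1, ((hc l a).2 k).2.1, ((hc l a).2 k).2.2.1⟩⟩,
    fun l a φ hφ => (hg l a).linearIndependent hv hP hK φ hφ, ?_, ?_, ?_⟩
  · intro l a k k' h h' hk h1 h2
    exact (hg l a).close hP hk (hbd h _ (Pool.Agent.IS.zeta_ne_zero _) h1).2
      (hbd h' _ (Pool.Agent.IS.zeta_ne_zero _) h2).1
  · intro U hU
    obtain ⟨D, -, hD0, hD⟩ := Pool.Agent.IS.exists_values hv hK U hU
    obtain ⟨R, hR1, hR⟩ : ∃ R : ℝ, 1 ≤ R ∧ ∀ γ ∈ D, ∀ δ ∈ D, γ ≤ R * δ := by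
      refine ⟨1 + ∑ p ∈ D ×ˢ D, p.1 / p.2, ?_, ?_⟩
      · have : 0 ≤ ∑ p ∈ D ×ˢ D, p.1 / p.2 := Finset.sum_nonneg fun p hp => by
          rw [Finset.mem_product] at hp
          exact div_nonneg (hD0 _ hp.1).le (hD0 _ hp.2).le
        linarith
      · intro γ hγ δ hδ
        have h1 : γ / δ ≤ ∑ p ∈ D ×ˢ D, p.1 / p.2 :=
          Finset.single_le_sum (f := fun p : ℝ × ℝ => p.1 / p.2) (fun p hp => by
            rw [Finset.mem_product] at hp
            exact div_nonneg (hD0 _ hp.1).le (hD0 _ hp.2).le)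
            (Finset.mem_product.2 (show (γ, δ).1 ∈ D ∧ (γ, δ).2 ∈ D from ⟨hγ, hδ⟩))
        rw [← div_le_iff₀ (hD0 δ hδ)]
        linarith
    obtain ⟨h, hh⟩ := pow_unbounded_of_one_lt R hP
    refine ⟨2 * h + 1, fun l a => (hg l a).encard_le hP h _ ?_⟩
    rintro k ⟨P, hP0, hPU, hPz⟩
    obtain ⟨h1, h2⟩ := Pool.Agent.IS.root_bounds hv U hR1
      (fun x hx hx0 y hy hy0 => hR _ (hD x hx hx0) _ (hD y hy hy0))
      _ (Pool.Agent.IS.zeta_ne_zero _) P hP0 hPU hPz
    exact ⟨h1.trans hh.le, h2.trans (mul_le_mul_of_nonneg_right hh.le (v.nonneg _))⟩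
  · intro s l a E V hV M
    exact Pool.Agent.IS.tuples hv hP hK s (fun i k => (word (c (l i) (a i) k)).sum)
      (fun i k => (zetaW (word (c (l i) (a i) k)) : ℂ)) (fun i => hg (l i) (a i)) E V hV M

end Pool.Agent.Results.MP_c2d7b4_nt.IndependentSequences
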