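import Pool.Agent.LibHB89.B1
import Pool.Agent.LibHB89.G6
import Pool.Agent.LibPR29.T1

set_option autoImplicit false

namespace Pool.Agent.Results.MP_c2d7b4_nt.NoMonicRelation

open Pool.HB89.Stmt

/-- **Almost all families of Hoffman elements with few threes satisfy no monic polynomial relation of bounded degree.**
Here `zetaW w` is the multiple zeta value of the word `w`, and `hoffman l N m` is the set of all words over `{2, 3}` with
exactly `l` threes and weight in `[N, N + m)`. `K` is any subfield of `ℂ` over which `π` is transcendental; by the last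
part the field of all algebraic numbers is one.

For all `v`, `d`, `s`, `l : Fin s → ℕ` and `ε > 0` there is `m₀` such that for all `N`, `m : Fin s → ℕ` with all
`m i ≥ m₀`, all `K` and all `K`-subspaces `W` of `ℂ` with `dim W ≤ v`: at most a proportion `ε` of the tuples `w` with
`w i ∈ hoffman (l i) (N i) (m i)` satisfy a relation `P (ζ(w₁), …, ζ(w_s)) = 0` with a polynomial `P` of total degree at
most `d` such that for some `i` and some monomial `X ^ α` the coefficient of `X ^ α` in `P` is in `K \ {0}`, and every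
other monomial of `P` has smaller degree in `X_i` than `X ^ α` and its coefficient in `W`. -/
theorem result :
    (∀ (v d s : ℕ) (l : Fin s → ℕ) (ε : ℝ), 0 < ε → ∃ m₀ : ℕ, ∀ N m : Fin s → ℕ, (∀ i, m₀ ≤ m i) →
      ∀ K : IntermediateField ℚ ℂ, Transcendental K (Real.pi : ℂ) →
        ∀ W : Submodule K ℂ, FiniteDimensional K W → Module.finrank K W ≤ v →
          ({w : Fin s → List ℕ | (∀ i, w i ∈ hoffman (l i) (N i) (m i)) ∧
            ∃ P : MvPolynomial (Fin s) ℂ, P.totalDegree ≤ d ∧
              (∃ (i : Fin s) (α : Fin s →₀ ℕ), (∃ a : K, a ≠ 0 ∧ P.coeff α = (a : ℂ)) ∧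
                ∀ β, β ≠ α → P.coeff β ∈ W ∧ (P.coeff β ≠ 0 → β i < α i)) ∧
              MvPolynomial.eval (fun i => (zetaW (w i) : ℂ)) P = 0}.ncard : ℝ) ≤
                ε * ∏ i, ((hoffman (l i) (N i) (m i)).ncard : ℝ)) ∧
    Transcendental (algebraicClosure ℚ ℂ) (Real.pi : ℂ) := by
  simp only [Pool.HB89.zetaW_eq, Pool.HB89.stmt_hoffman_eq]
  refine ⟨?_, Pool.HB89.transcendental_pi_closure⟩
  intro v d s l ε hε
  obtain ⟨m₀, h⟩ := Pool.Agent.LibPR29.tuples v d s l ε hε
  exact ⟨m₀, fun N m hm K hK W hWf hW => h N m hm K hK W hWf hW⟩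

end Pool.Agent.Results.MP_c2d7b4_nt.NoMonicRelation
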