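import Pool.Agent.LibPR57.ResB

set_option autoImplicit false

namespace Pool.Agent.Results.MP_c2d7b4_nt.PoleOrders

open Pool.HB89.Stmt (zetaW)

/-- The words of weight `N` in the letters `2`, `3`. -/
def hoff (N : ℕ) : Set (List ℕ) := {w | (∀ x ∈ w, x = 2 ∨ x = 3) ∧ w.sum = N}

/-- The factors (blocks of consecutive letters) of the products of words of `B`. -/
def Fact (B : Finset (List ℕ)) : Set (List ℕ) := {w | ∃ s : List (List ℕ), (∀ β ∈ s, β ∈ B) ∧ w <:+: s.flatten}

/-- Full exponential growth of a set `T` of words (`#2`, `#3` are the numbers of twos and threes).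

(a) For every `n ≥ 1`, every nonempty set `B` of words of length `n` in the letters `2`, `3` and all `a, b > 0` such that the
sum of `a ^ #2 * b ^ #3` over `B` is larger than `1`, the sum of `a ^ #2 * b ^ #3` over the words of `T` which are factors of
products of words of `B` diverges. (If the sum over `B` is smaller than `1`, then the sum over all these factors converges.
`n = 1`, `B = {2, 3}`: all words. `B = {u}`: the factors of the periodic word `u u u ⋯`.)

(b) For every `ε > 0` there are arbitrarily large weights `N` such that at least `d ^ (1 - ε)` of the `d` words of weight `N` are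
in `T`.

(c) For every `m` there is `J` such that for every nonempty word `u` in the letters `2`, `3` the word `u ^ J` has a factor in `T`
with more than `m` letters. -/
def Full (T : Set (List ℕ)) : Prop :=
  (∀ n : ℕ, 0 < n → ∀ B : Finset (List ℕ), B.Nonempty → (∀ β ∈ B, β.length = n ∧ ∀ x ∈ β, x = 2 ∨ x = 3) →
    ∀ a b : ℝ, 0 < a → 0 < b → 1 < ∑ β ∈ B, a ^ β.count 2 * b ^ β.count 3 →
      ¬ Summable fun w : {w : List ℕ // w ∈ Fact B ∧ w ∈ T} => a ^ w.1.count 2 * b ^ w.1.count 3) ∧
  (∀ ε : ℝ, 0 < ε → ∀ N₀ : ℕ, ∃ N, N₀ ≤ N ∧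
    ((hoff N).ncard : ℝ) ^ (1 - ε) ≤ ({w : List ℕ | w ∈ hoff N ∧ w ∈ T}.ncard : ℝ)) ∧
  (∀ m : ℕ, ∃ J : ℕ, ∀ u : List ℕ, u ≠ [] → (∀ x ∈ u, x = 2 ∨ x = 3) →
    ∃ w, w <:+: (List.replicate J u).flatten ∧ m < w.length ∧ w ∈ T)

/-- **Algebraic relations of Hoffman elements and their pole orders.** `zetaW w` is the multiple zeta value of the word `w`.

Let `K` be a subfield of `ℂ` over which `π` is transcendental; by the last part the field of all algebraic numbers is one.

(1) Let `U` be a finite-dimensional `K`-subspace of `ℂ`. The words `w` for which `ζ(w)` is a root of no nonzero polynomial, of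
any degree, with coefficients in `U` have full exponential growth. For all `s`, `d` and `ε > 0` there are arbitrarily large
weights `N 0 > ⋯ > N (s-1)` such that for at least `∏ d(N i) ^ (1 - ε)` of the `∏ d(N i)` tuples of words `w i` of weight `N i`
(`d(N)` is the number of words of weight `N`) no nonzero polynomial in `s` variables of degree at most `d` with coefficients in
`U` vanishes at `(ζ(w 0), …, ζ(w (s-1)))`.

(2) For every `κ < 1` the words `w` such that every algebraic relation over `K` between `π` and `ζ(w)` has degree greater than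
`κ * weight` in `π` (and any degree in `ζ(w)`) have full exponential growth.

(3) General form: for every ultrametric absolute value `v` of `ℂ` which is trivial on the rational numbers and all real numbers
`0 < y < v(π)²`, `0 < z < v(π)³` the words `w` with `v(ζ(w)) > y ^ #2 * z ^ #3` have full exponential growth. -/
theorem result :
    (∀ K : IntermediateField ℚ ℂ, Transcendental K (Real.pi : ℂ) →
      (∀ U : Submodule K ℂ, FiniteDimensional K U →
        Full {w | ∀ P : Polynomial ℂ, P ≠ 0 → (∀ k, P.coeff k ∈ U) → P.eval (zetaW w : ℂ) ≠ 0} ∧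
        ∀ (s d : ℕ) (ε : ℝ), 0 < ε → ∀ N₀ : ℕ, ∃ N : Fin s → ℕ, StrictAnti N ∧ (∀ i, N₀ ≤ N i) ∧
          ∏ i, ((hoff (N i)).ncard : ℝ) ^ (1 - ε) ≤
            ({w : Fin s → List ℕ | (∀ i, w i ∈ hoff (N i)) ∧
              ∀ P : MvPolynomial (Fin s) ℂ, P ≠ 0 → P.totalDegree ≤ d → (∀ m, P.coeff m ∈ U) →
                MvPolynomial.eval (fun i => (zetaW (w i) : ℂ)) P ≠ 0}.ncard : ℝ)) ∧
      (∀ κ : ℝ, κ < 1 →
        Full {w | ∀ F : Polynomial (Polynomial K), F ≠ 0 → (∀ k, ((F.coeff k).natDegree : ℝ) ≤ κ * w.sum) →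
          F.eval₂ (Polynomial.aeval (Real.pi : ℂ) : Polynomial K →ₐ[K] ℂ).toRingHom (zetaW w : ℂ) ≠ 0})) ∧
    (∀ v : AbsoluteValue ℂ ℝ, (∀ x x' : ℂ, v (x + x') ≤ max (v x) (v x')) → (∀ n : ℕ, n ≠ 0 → v (n : ℂ) = 1) →
      ∀ y z : ℝ, 0 < y → y < v (Real.pi : ℂ) ^ 2 → 0 < z → z < v (Real.pi : ℂ) ^ 3 →
        Full {w | y ^ w.count 2 * z ^ w.count 3 < v (zetaW w : ℂ)}) ∧
    Transcendental (algebraicClosure ℚ ℂ) (Real.pi : ℂ) := by
  have hfull : ∀ T : Set (List ℕ), Pool.Agent.PR.Full3 T → Full T := by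
    intro T hT
    refine ⟨hT.1, fun ε hε N₀ => ?_, hT.2⟩
    obtain ⟨N, hN, h⟩ := hT.1.full.2 ε hε N₀
    refine ⟨N, hN, h.trans (le_of_eq ?_)⟩
    congr 2
    ext w
    exact and_assoc.symm
  exact ⟨fun K hK => ⟨fun U hU => ⟨hfull _ (Pool.Agent.PR.full3_degree K hK U hU),
      fun s d ε hε N₀ => Pool.Agent.PO.tuples_rel K hK U hU d ε hε s N₀⟩,
      fun κ hκ => hfull _ (Pool.Agent.PR.full3_relation K hK κ hκ)⟩,
    fun v h1 h2 y z hy hyπ hz hzπ => hfull _ (Pool.Agent.PR.master3 ⟨h1, h2⟩ y z hy hyπ hz hzπ),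
    Pool.HB89.transcendental_pi_closure⟩

end Pool.Agent.Results.MP_c2d7b4_nt.PoleOrders
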